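import Pool.Agent.Run7.h892.CG.Stm2

/-!
# Piece COO: coordinate complement of a small subgroup
-/

set_option autoImplicit false

namespace Pool.Agent.Run7.h593.CG

open Pool.Agent.Run7.h892.CG

theorem coo_aux (p R : ℕ) [Fact p.Prime] : ∀ (n : ℕ) (N : AddSubgroup (Fin R → ZMod p)),
    Nat.card N = n → ∃ J : Finset (Fin R), p ^ J.card ≤ Nat.card N ∧
      ∀ y ∈ N, (∀ j ∈ J, y j = 0) → y = 0 := by
  intro n
  induction n using Nat.strong_induction_on with
  | _ n ih =>
    intro N hN
    by_cases h0 : ∀ y ∈ N, y = 0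
    · refine ⟨∅, ?_, fun y hy _ => h0 y hy⟩
      rw [Finset.card_empty, pow_zero]
      exact Nat.one_le_iff_ne_zero.2 Nat.card_pos.ne'
    · push Not at h0
      obtain ⟨x, hx, hx0⟩ := h0
      obtain ⟨j, hj⟩ : ∃ j, x j ≠ 0 := by
        by_contra hcon
        push Not at hcon
        exact hx0 (funext hcon)
      let N' : AddSubgroup (Fin R → ZMod p) :=
        { carrier := {y | y ∈ N ∧ y j = 0}
          zero_mem' := ⟨N.zero_mem, rfl⟩
          add_mem' := by
            rintro a b ⟨ha, ha'⟩ ⟨hb, hb'⟩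
            exact ⟨N.add_mem ha hb, by rw [Pi.add_apply, ha', hb', add_zero]⟩
          neg_mem' := by
            rintro a ⟨ha, ha'⟩
            exact ⟨N.neg_mem ha, by rw [Pi.neg_apply, ha', neg_zero]⟩ }
      have hmem : ∀ y, y ∈ N' ↔ y ∈ N ∧ y j = 0 := fun y => Iff.rfl
      -- the injection
      have hmul : ∀ (k : ZMod p), k.val • x ∈ N := fun k => N.nsmul_mem hx _
      have hval : ∀ (k : ZMod p) (i : Fin R), (k.val • x) i = k * x i := by
        intro k i
        rw [Pi.smul_apply, nsmul_eq_mul, ZMod.natCast_zmod_val]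
      let φ : N' × ZMod p → N := fun q =>
        ⟨q.1.1 + q.2.val • x, N.add_mem ((hmem _).1 q.1.2).1 (hmul _)⟩
      have hφ : Function.Injective φ := by
        rintro ⟨⟨a, ha⟩, k⟩ ⟨⟨b, hb⟩, l⟩ hab
        have h1 : a + k.val • x = b + l.val • x := congrArg Subtype.val hab
        have h2 := congrFun h1 j
        rw [Pi.add_apply, Pi.add_apply, hval, hval, ((hmem _).1 ha).2, ((hmem _).1 hb).2, zero_add,
          zero_add] at h2
        have h3 : k = l := mul_right_cancel₀ hj h2
        subst h3
        have h4 : a = b := add_right_cancel h1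
        subst h4
        rfl
      have hcard : Nat.card N' * p ≤ Nat.card N := by
        have h5 := Nat.card_le_card_of_injective φ hφ
        rwa [Nat.card_prod, Nat.card_zmod] at h5
      have hpos : 0 < Nat.card N' := Nat.card_pos
      have hp2 : 2 ≤ p := (Fact.out : p.Prime).two_le
      have hlt : Nat.card N' < n := by
        rw [← hN]
        nlinarith
      obtain ⟨J, hJ1, hJ2⟩ := ih _ hlt N' rfl
      refine ⟨insert j J, ?_, ?_⟩
      · calc p ^ (insert j J).card ≤ p ^ (J.card + 1) :=
              Nat.pow_le_pow_right (by linarith) (Finset.card_insert_le _ _)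
          _ = p ^ J.card * p := pow_succ _ _
          _ ≤ Nat.card N' * p := Nat.mul_le_mul_right _ hJ1
          _ ≤ _ := hcard
      · intro y hy h
        refine hJ2 y ((hmem y).2 ⟨hy, h j (Finset.mem_insert_self _ _)⟩) fun i hi => ?_
        exact h i (Finset.mem_insert_of_mem hi)

theorem t_COO : S_COO := by
  intro p R g hp N hN
  haveI : Fact p.Prime := ⟨hp⟩
  obtain ⟨J, hJ1, hJ2⟩ := coo_aux p R _ N rfl
  have hJg : J.card ≤ g := (Nat.pow_le_pow_iff_right hp.one_lt).1 (hJ1.trans hN)
  have hc : R - g ≤ (Jᶜ).card := by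
    rw [Finset.card_compl, Fintype.card_fin]
    omega
  obtain ⟨T, hT, hTc⟩ := Finset.exists_subset_card_eq hc
  refine ⟨T.orderEmbOfFin hTc, (T.orderEmbOfFin hTc).injective, fun y hy h => ?_⟩
  refine hJ2 y hy fun j hj => h j ?_
  rw [Finset.range_orderEmbOfFin]
  intro hjT
  exact (Finset.mem_compl.1 (hT hjT)) hj

end Pool.Agent.Run7.h593.CG
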