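import Pool.Agent.Run7.h892.CG.Stm2

/-!
# Piece CRT: independent families for prime powers
-/

set_option autoImplicit false

namespace Pool.Agent.Run7.h593.CG

open Pool.Agent.Run7.h892.CG

theorem t_CRT : S_CRT := by
  intro C _ M r hM h
  choose! c hc using h
  refine ⟨fun i => ∏ p ∈ M.primeFactors, c p i, ?_, ?_⟩
  · intro i
    rw [← Finset.prod_pow]
    refine Finset.prod_eq_one fun p hp => ?_
    have hpp := Nat.prime_of_mem_primeFactors hp
    have hpd := Nat.dvd_of_mem_primeFactors hp
    obtain ⟨E, hE⟩ := Nat.ordProj_dvd M p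
    have h1 := (hc p hpp hpd).1 i
    calc c p i ^ M = c p i ^ (p ^ M.factorization p * E) := by rw [← hE]
      _ = 1 := by rw [pow_mul, h1, one_pow]
  · intro z hz i
    -- the statement for one prime
    have key : ∀ p : ℕ, p.Prime → p ∣ M → ((p ^ M.factorization p : ℕ) : ℤ) ∣ z i := by
      intro p hpp hpd
      set E : ℕ := M / p ^ M.factorization p with hE
      have hM' : p ^ M.factorization p * E = M := Nat.ordProj_mul_ordCompl_eq_self M p
      have hcop : Nat.Coprime p E := Nat.coprime_ordCompl hpp hM.ne'
      have h1 : ∀ j, (∏ q ∈ M.primeFactors, c q j) ^ ((E : ℤ) * z j) =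
          c p j ^ ((E : ℤ) * z j) := by
        intro j
        rw [← Finset.prod_zpow]
        refine Finset.prod_eq_single p ?_ ?_
        · intro q hq hqp
          have hqq := Nat.prime_of_mem_primeFactors hq
          have hqd := Nat.dvd_of_mem_primeFactors hq
          have h2 : q ^ M.factorization q ∣ E := by
            have h3 : q ^ M.factorization q ∣ p ^ M.factorization p * E := by
              rw [hM']
              exact Nat.ordProj_dvd M q
            refine Nat.Coprime.dvd_of_dvd_mul_left ?_ h3
            exact Nat.Coprime.pow _ _ ((Nat.coprime_primes hqq hpp).2 hqp)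
          obtain ⟨t, ht⟩ := h2
          rw [zpow_mul, zpow_natCast, ht, pow_mul, (hc q hqq hqd).1 j, one_pow, one_zpow]
        · intro hn
          exact absurd (Nat.mem_primeFactors.2 ⟨hpp, hpd, hM.ne'⟩) hn
      have h2 : ∏ j, c p j ^ ((E : ℤ) * z j) = 1 := by
        have h3 : ∏ j, (∏ q ∈ M.primeFactors, c q j) ^ ((E : ℤ) * z j) = 1 := by
          have h4 : ∀ j, (∏ q ∈ M.primeFactors, c q j) ^ ((E : ℤ) * z j) =
              ((∏ q ∈ M.primeFactors, c q j) ^ z j) ^ (E : ℤ) := by
            intro j
            rw [mul_comm, zpow_mul]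
          simp only [h4]
          rw [Finset.prod_zpow, hz, one_zpow]
        rw [← h3]
        exact Finset.prod_congr rfl fun j _ => (h1 j).symm
      have h5 := (hc p hpp hpd).2 _ h2 i
      have h6 : IsCoprime ((p ^ M.factorization p : ℕ) : ℤ) (E : ℤ) := by
        rw [Nat.isCoprime_iff_coprime]
        exact Nat.Coprime.pow_left _ hcop
      exact h6.dvd_of_dvd_mul_left h5
    rw [Int.natCast_dvd, Nat.dvd_iff_prime_pow_dvd_dvd]
    intro p k hpp hk
    by_cases hk0 : k = 0
    · rw [hk0, pow_zero]
      exact one_dvd _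
    have hpd : p ∣ M := (dvd_pow_self p hk0).trans hk
    have h1 : k ≤ M.factorization p := (hpp.pow_dvd_iff_le_factorization hM.ne').1 hk
    have h2 := key p hpp hpd
    rw [Int.natCast_dvd] at h2
    exact (pow_dvd_pow p h1).trans h2

end Pool.Agent.Run7.h593.CG
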